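import Mathlib

/-!
# Perfect preimages of Grothendieck spaces (Arhangel'skii 1998)

There are Tychonoff spaces `X`, `Y` and a perfect map `f : X → Y` such that `Y` is a
Grothendieck space while `X` is not even weakly Grothendieck.
-/

namespace Pool.Agent.Results.MP_590c78_gt.PerfectPreimage

open Topology Set Filter

/-- The space `C_p(X)`: continuous real-valued functions on `X` with the topology of pointwise
convergence, i.e. with the subspace topology inherited from the product `X → ℝ`. -/
abbrev Cp (X : Type*) [TopologicalSpace X] : Type _ := {f : X → ℝ // Continuous f}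

/-- `A ⊆ Z` is countably compact in `Z`: every infinite subset of `A` has an accumulation point
in `Z`. -/
def CountablyCompactIn (Z : Type*) [TopologicalSpace Z] (A : Set Z) : Prop :=
  ∀ S : Set Z, S ⊆ A → S.Infinite → ∃ z : Z, AccPt z (𝓟 S)

/-- `Z` is a g-space: the closure of every set that is countably compact in `Z` is compact. -/
def IsGSpace (Z : Type*) [TopologicalSpace Z] : Prop :=
  ∀ A : Set Z, CountablyCompactIn Z A → IsCompact (closure A)

/-- `Z` is a hereditarily g-space: every subspace of `Z` is a g-space. -/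
def IsHereditarilyGSpace (Z : Type*) [TopologicalSpace Z] : Prop :=
  ∀ S : Set Z, IsGSpace S

/-- `X` is Grothendieck: `C_p(X)` is a hereditarily g-space. -/
def IsGrothendieck (X : Type*) [TopologicalSpace X] : Prop :=
  IsHereditarilyGSpace (Cp X)

/-- `X` is weakly Grothendieck: `C_p(X)` is a g-space. -/
def IsWeaklyGrothendieck (X : Type*) [TopologicalSpace X] : Prop :=
  IsGSpace (Cp X)

/-- A perfect map: continuous, closed, surjective, with compact fibres. -/
structure IsPerfect {X Y : Type*} [TopologicalSpace X] [TopologicalSpace Y] (f : X → Y) :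
    Prop where
  continuous : Continuous f
  isClosedMap : IsClosedMap f
  surjective : Function.Surjective f
  isCompact_fiber : ∀ y, IsCompact (f ⁻¹' {y})

/-- A hereditarily g-space is a g-space. -/
theorem IsHereditarilyGSpace.isGSpace {Z : Type*} [TopologicalSpace Z]
    (h : IsHereditarilyGSpace Z) : IsGSpace Z := by
  intro A hA
  have h1 : CountablyCompactIn (univ : Set Z) (Subtype.val ⁻¹' A) := by
    intro S hSA hS
    obtain ⟨z, hz⟩ := hA (Subtype.val '' S) (by rintro _ ⟨x, hx, rfl⟩; exact hSA hx)
      (hS.image Subtype.val_injective.injOn)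
    refine ⟨⟨z, mem_univ z⟩, ?_⟩
    rw [accPt_iff_nhds] at hz ⊢
    intro U hU
    rw [nhds_subtype_eq_comap, mem_comap] at hU
    obtain ⟨V, hV, hVU⟩ := hU
    obtain ⟨_, ⟨hyV, y, hyS, rfl⟩, hyz⟩ := hz V hV
    exact ⟨y, ⟨hVU hyV, hyS⟩, fun h2 => hyz (congrArg Subtype.val h2)⟩
  have h2 := (h univ _ h1).image continuous_subtype_val
  have h3 : (Subtype.val '' closure (Subtype.val ⁻¹' A : Set (univ : Set Z))) = closure A := by
    rw [← (isClosed_univ (X := Z)).isClosedEmbedding_subtypeVal.closure_image_eq]
    simp
  rwa [h3] at h2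

/-- Every Grothendieck space is weakly Grothendieck. -/
theorem IsGrothendieck.isWeaklyGrothendieck {X : Type*} [TopologicalSpace X]
    (h : IsGrothendieck X) : IsWeaklyGrothendieck X :=
  IsHereditarilyGSpace.isGSpace h

/-! ### A criterion for g-spaces -/

section criterion

variable {Z M : Type*} [TopologicalSpace Z]

/-- A sequence in a set that is countably compact in `Z` has a cluster point in `Z`. -/
theorem exists_mapClusterPt [T1Space Z] {A : Set Z} (hA : CountablyCompactIn Z A)
    (a : ℕ → Z) (ha : ∀ n, a n ∈ A) : ∃ p : Z, MapClusterPt p atTop a := by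
  by_cases hfin : (range a).Finite
  · -- a value is attained infinitely often
    obtain ⟨x, hx⟩ : ∃ x, (a ⁻¹' {x}).Infinite := by
      by_contra hcon
      push Not at hcon
      have : (univ : Set ℕ) = ⋃ x ∈ range a, a ⁻¹' {x} := by
        ext n; simp
      have h2 : (univ : Set ℕ).Finite := by
        rw [this]
        exact hfin.biUnion (fun x _ => hcon x)
      exact infinite_univ h2
    refine ⟨x, ?_⟩
    rw [mapClusterPt_iff_frequently]
    intro U hU
    rw [frequently_atTop]
    intro N
    obtain ⟨n, hn, hNn⟩ := hx.exists_gt N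
    exact ⟨n, hNn.le, by rw [mem_preimage, mem_singleton_iff] at hn; rw [hn]; exact mem_of_mem_nhds hU⟩
  · obtain ⟨p, hp⟩ := hA (range a) (by rintro _ ⟨n, rfl⟩; exact ha n) hfin
    refine ⟨p, ?_⟩
    rw [mapClusterPt_iff_frequently]
    intro U hU
    rw [frequently_atTop]
    intro N
    -- remove the finitely many points `a 0, …, a N` different from `p`
    have hF : ((a '' Iic N) \ {p}).Finite := ((finite_Iic N).image a).subset sdiff_subset
    have hU' : U ∩ ((a '' Iic N) \ {p})ᶜ ∈ 𝓝 p := by
      refine inter_mem hU (hF.isClosed.isOpen_compl.mem_nhds ?_)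
      simp
    obtain ⟨y, ⟨⟨hyU, hyF⟩, hyr⟩, hyp⟩ := accPt_iff_nhds.mp hp _ hU'
    obtain ⟨n, rfl⟩ := hyr
    refine ⟨n, ?_, hyU⟩
    by_contra hlt
    push Not at hlt
    exact hyF ⟨⟨n, hlt.le, rfl⟩, hyp⟩

/-- A regular Hausdorff space with a continuous injection into a metric space is a g-space. -/
theorem isGSpace_of_injective [T3Space Z] [MetricSpace M] (r : Z → M) (hr : Continuous r)
    (hinj : Function.Injective r) : IsGSpace Z := by
  intro A hA
  -- Claim A
  have claimA : ∀ (a : ℕ → Z) (_ : ∀ n, a n ∈ A) (m : M),
      Tendsto (fun n => r (a n)) atTop (𝓝 m) → ∃ p, r p = m ∧ p ∈ closure (range a) := by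
    intro a ha m hm
    obtain ⟨p, hp⟩ := exists_mapClusterPt hA a ha
    refine ⟨p, ?_, ?_⟩
    · have h1 : MapClusterPt (r p) atTop (fun n => r (a n)) :=
        hp.continuousAt_comp hr.continuousAt
      exact eq_of_nhds_neBot (ClusterPt.mono h1 hm)
    · rw [mem_closure_iff_nhds]
      intro U hU
      obtain ⟨n, hn⟩ := (mapClusterPt_iff_frequently.mp hp U hU).exists
      exact ⟨a n, hn, n, rfl⟩
  -- Claim B
  have claimB : IsCompact (closure (r '' A)) := by
    apply IsSeqCompact.isCompact
    intro x hx
    have h1 : ∀ n : ℕ, ∃ a ∈ A, dist (x n) (r a) < 1 / ((n : ℝ) + 1) := by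
      intro n
      obtain ⟨y, ⟨a, haA, rfl⟩, hy⟩ := Metric.mem_closure_iff.mp (hx n) (1 / ((n : ℝ) + 1))
        (by positivity)
      exact ⟨a, haA, hy⟩
    choose a haA had using h1
    obtain ⟨p, hp⟩ := exists_mapClusterPt hA a haA
    have h1 : MapClusterPt (r p) atTop (fun n => r (a n)) :=
      hp.continuousAt_comp hr.continuousAt
    obtain ⟨ψ, hψ, hψt⟩ := MapClusterPt.tendsto_subseq h1
    refine ⟨r p, ?_, ψ, hψ, ?_⟩
    · exact mem_closure_of_tendsto hψt (Eventually.of_forall fun n => ⟨a (ψ n), haA _, rfl⟩)
    · rw [tendsto_iff_dist_tendsto_zero] at hψt ⊢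
      have h3 : Tendsto (fun n => 1 / (((ψ n : ℕ) : ℝ) + 1)) atTop (𝓝 0) :=
        tendsto_one_div_add_atTop_nhds_zero_nat.comp hψ.tendsto_atTop
      have h4 := h3.add hψt
      rw [add_zero] at h4
      refine squeeze_zero (fun n => dist_nonneg) (fun n => ?_) h4
      calc dist ((x ∘ ψ) n) (r p) ≤ dist (x (ψ n)) (r (a (ψ n))) + dist (r (a (ψ n))) (r p) :=
            dist_triangle _ _ _
        _ ≤ _ := add_le_add (had _).le le_rfl
  rw [isCompact_iff_ultrafilter_le_nhds]
  intro f hf
  have hmap : ↑(f.map r) ≤ 𝓟 (closure (r '' A)) := by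
    rw [le_principal_iff] at hf ⊢
    rw [Ultrafilter.coe_map, mem_map]
    refine mem_of_superset hf ?_
    intro z hz
    exact map_mem_closure hr hz (fun a ha => ⟨a, ha, rfl⟩)
  obtain ⟨m, hmK, hm⟩ := isCompact_iff_ultrafilter_le_nhds.mp claimB (f.map r) hmap
  obtain ⟨y, hyA, hy⟩ := mem_closure_iff_seq_limit.mp hmK
  choose a haA hay using hyA
  obtain ⟨p, hp, hpc⟩ := claimA a haA m (by simpa [hay] using hy)
  refine ⟨p, ?_, ?_⟩
  · exact closure_mono (by rintro _ ⟨n, rfl⟩; exact haA n) hpc
  · rw [(closed_nhds_basis p).ge_iff]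
    rintro C ⟨hCp, hCc⟩
    by_contra hCf
    have hCf : Cᶜ ∈ f := Ultrafilter.compl_mem_iff_notMem.mpr hCf
    have h1 : ∀ n : ℕ, ∃ b ∈ A, b ∈ Cᶜ ∧ dist (r b) m < 1 / ((n : ℝ) + 1) := by
      intro n
      have hball : r ⁻¹' (Metric.ball m (1 / ((n : ℝ) + 1))) ∈ f := by
        have := hm (Metric.ball_mem_nhds m (show (0 : ℝ) < 1 / ((n : ℝ) + 1) by positivity))
        exact this
      have hcl : closure A ∈ f := le_principal_iff.mp hf
      obtain ⟨z, ⟨hz1, hz2⟩, hz3⟩ := f.nonempty_of_mem (inter_mem (inter_mem hCf hball) hcl)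
      have hopen : IsOpen (Cᶜ ∩ r ⁻¹' (Metric.ball m (1 / ((n : ℝ) + 1)))) :=
        hCc.isOpen_compl.inter (Metric.isOpen_ball.preimage hr)
      obtain ⟨b, hb1, hbA⟩ := mem_closure_iff.mp hz3 _ hopen ⟨hz1, hz2⟩
      exact ⟨b, hbA, hb1.1, hb1.2⟩
    choose b hbA hbC hbd using h1
    have hbt : Tendsto (fun n => r (b n)) atTop (𝓝 m) := by
      rw [tendsto_iff_dist_tendsto_zero]
      exact squeeze_zero (fun n => dist_nonneg) (fun n => (hbd n).le)
        tendsto_one_div_add_atTop_nhds_zero_nat
    obtain ⟨p', hp', hpc'⟩ := claimA b hbA m hbt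
    have : p' = p := hinj (hp'.trans hp.symm)
    subst this
    obtain ⟨z, hz1, n, rfl⟩ := mem_closure_iff_nhds.mp hpc' C hCp
    exact hbC n hz1

end criterion

/-- Every separable space is Grothendieck. -/
theorem isGrothendieck_of_separable (Y : Type*) [TopologicalSpace Y]
    [TopologicalSpace.SeparableSpace Y] : IsGrothendieck Y := by
  obtain ⟨s, hsc, hsd⟩ := TopologicalSpace.exists_countable_dense Y
  have : Countable s := hsc.to_subtype
  intro S
  let _ : MetricSpace (s → ℝ) := TopologicalSpace.metrizableSpaceMetric (s → ℝ)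
  refine isGSpace_of_injective (Z := S) (M := s → ℝ) (fun f d => f.1.1 d) ?_ ?_
  · refine continuous_pi fun d => ?_
    exact (continuous_apply (d : Y)).comp (continuous_subtype_val.comp continuous_subtype_val)
  · intro f g hfg
    apply Subtype.ext
    apply Subtype.ext
    refine Continuous.ext_on hsd f.1.2 g.1.2 ?_
    intro d hd
    exact congrFun hfg ⟨d, hd⟩

/-! ### The spaces -/

/-- The Cantor set, used as an uncountable index set. -/
abbrev D : Type := ℕ → Bool

/-- Sequences in `D`. -/
abbrev I : Type := ℕ → D

/-- The ambient separable product. -/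
abbrev P : Type := I → ℝ

open Classical in
/-- The point of `P` given by `d : D`: the `s`-th coordinate is `1` if `d` is a term of the
sequence `s`, and `0` otherwise. -/
noncomputable def e (d : D) : P := fun s => if d ∈ range s then 1 else 0

/-- The one-point Lindelofication of the discrete set `D`, as a subset of `P`. -/
def F : Set P := insert 0 (range e)

/-- The space `Y`. -/
abbrev Y : Type := {x : P × ℝ // 0 < x.2 ∨ (x.2 = 0 ∧ x.1 ∈ F)}

/-- The space `X`: the sum of `Y` and of its closed subset `F × {0}`. -/
abbrev X : Type := {x : Y × Bool // x.2 = true → x.1.1.2 = 0}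

theorem uncountable_D : Uncountable D := by
  rw [← Cardinal.aleph0_lt_mk_iff]
  simpa using Cardinal.cantor Cardinal.aleph0

theorem separable_P : TopologicalSpace.SeparableSpace P := by
  have hd : DenseRange (fun f : C(I, ℝ) => (f : I → ℝ)) := by
    intro g
    rw [mem_closure_iff_nhds]
    intro U hU
    rw [nhds_pi, Filter.mem_pi'] at hU
    obtain ⟨T, t, ht, hTU⟩ := hU
    have hTc : IsClosed (T : Set I) := T.finite_toSet.isClosed
    have : DiscreteTopology (T : Set I) := Finite.instDiscreteTopology
    obtain ⟨f, hf⟩ := ContinuousMap.exists_restrict_eq (Y := ℝ) hTc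
      ⟨fun x => g x, continuous_of_discreteTopology⟩
    refine ⟨f, hTU ?_, f, rfl⟩
    intro i hi
    have h3 : f i = g i := DFunLike.congr_fun hf ⟨i, hi⟩
    rw [h3]
    exact mem_of_mem_nhds (ht i)
  exact hd.separableSpace (continuous_pi fun i => ContinuousEvalConst.continuous_eval_const i)

theorem separable_Y : TopologicalSpace.SeparableSpace Y := by
  have := separable_P
  let g : P × ℝ → Y := fun x => ⟨(x.1, Real.exp x.2), Or.inl (Real.exp_pos _)⟩
  have hg : Continuous g := by fun_prop
  have hd : DenseRange g := by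
    rintro ⟨⟨p, t⟩, ht⟩
    rcases ht with ht | ⟨ht, hp⟩
    · refine subset_closure ⟨(p, Real.log t), ?_⟩
      simp only [g]
      apply Subtype.ext
      simp [Real.exp_log ht]
    · simp only at ht
      subst ht
      have h1 : Tendsto (fun n : ℕ => g (p, -(n : ℝ))) atTop (𝓝 ⟨(p, 0), Or.inr ⟨rfl, hp⟩⟩) := by
        rw [tendsto_subtype_rng]
        refine Tendsto.prodMk_nhds tendsto_const_nhds ?_
        exact Real.tendsto_exp_neg_atTop_nhds_zero.comp tendsto_natCast_atTop_atTop
      exact mem_closure_of_tendsto h1 (Eventually.of_forall fun n => ⟨_, rfl⟩)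
  exact hd.separableSpace hg

/-- The map `X → Y`. -/
def proj : X → Y := fun x => x.1.1

theorem isPerfect_proj : IsPerfect proj where
  continuous := continuous_fst.comp continuous_subtype_val
  isClosedMap := by
    have h1 : IsClosed {x : Y × Bool | x.2 = true → x.1.1.2 = 0} := by
      have : {x : Y × Bool | x.2 = true → x.1.1.2 = 0} =
          {x : Y × Bool | x.2 = false} ∪ {x : Y × Bool | x.1.1.2 = 0} := by
        ext x
        cases h : x.2 <;> simp [h]
      rw [this]
      refine IsClosed.union ?_ ?_
      · exact isClosed_eq continuous_snd continuous_const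
      · exact isClosed_eq (by fun_prop) continuous_const
    have h2 : IsClosedMap (Subtype.val : X → Y × Bool) := h1.isClosedEmbedding_subtypeVal.isClosedMap
    exact (isClosedMap_fst_of_compactSpace).comp h2
  surjective := fun y => ⟨⟨(y, false), by simp⟩, rfl⟩
  isCompact_fiber := by
    intro y
    apply Set.Finite.isCompact
    refine Set.Finite.subset (s := Subtype.val ⁻¹' {(y, false), (y, true)}) ?_ ?_
    · exact (by simp : ({(y, false), (y, true)} : Set (Y × Bool)).Finite).preimage
        Subtype.val_injective.injOn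
    · rintro ⟨⟨y', b⟩, hx⟩ hy
      simp only [proj, mem_preimage, mem_singleton_iff] at hy
      subst hy
      cases b <;> simp

/-! ### `X` is not weakly Grothendieck -/

theorem e_injective : Function.Injective e := by
  intro d d' h
  have h1 := congrFun h (fun _ => d')
  simpa [e] using h1

theorem e_ne_zero (d : D) : e d ≠ 0 := by
  intro h
  have h1 := congrFun h (fun _ => d)
  simp [e] at h1

/-- The copy of `d : D` in the clopen copy of `F` in `X`. -/
noncomputable def pt (d : D) : X :=
  ⟨(⟨(e d, 0), Or.inr ⟨rfl, Or.inr ⟨d, rfl⟩⟩⟩, true), fun _ => rfl⟩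

/-- The limit point. -/
noncomputable def ptInf : X :=
  ⟨(⟨(0, 0), Or.inr ⟨rfl, Or.inl rfl⟩⟩, true), fun _ => rfl⟩

theorem tendsto_pt : Tendsto pt cocountable (𝓝 ptInf) := by
  unfold pt ptInf
  rw [tendsto_subtype_rng]
  refine Tendsto.prodMk_nhds ?_ tendsto_const_nhds
  rw [tendsto_subtype_rng]
  refine Tendsto.prodMk_nhds ?_ tendsto_const_nhds
  rw [tendsto_pi_nhds]
  intro s
  refine tendsto_const_nhds.congr' ?_
  have h1 : (range s)ᶜ ∈ (cocountable : Filter D) := by
    rw [mem_cocountable, compl_compl]
    exact countable_range s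
  filter_upwards [h1] with d hd
  have hd' : d ∉ range s := hd
  simp [e, hd']

/-- The continuous function on `X` attached to a sequence `s`: it is the indicator function of
the set of copies of terms of `s`. -/
noncomputable def a (s : I) : X → ℝ := fun x => (if x.1.2 = true then 1 else 0) * x.1.1.1.1 s

theorem continuous_a (s : I) : Continuous (a s) := by
  unfold a
  refine Continuous.mul ?_ (by fun_prop)
  exact (continuous_of_discreteTopology (f := fun b : Bool => if b = true then (1 : ℝ) else 0)).comp
    (continuous_snd.comp continuous_subtype_val)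

/-- The set of all `a s` in `C_p(X)`. -/
def A : Set (Cp X) := range fun s : I => (⟨a s, continuous_a s⟩ : Cp X)

theorem cases_X (x : X) : x.1.2 = false ∨ x = ptInf ∨ ∃ d, x = pt d := by
  obtain ⟨⟨⟨⟨p, t⟩, hy⟩, b⟩, hx⟩ := x
  cases b
  · exact Or.inl rfl
  · right
    have ht : t = 0 := hx rfl
    subst ht
    rcases hy with hy | ⟨-, hy⟩
    · exact absurd hy (lt_irrefl _)
    · rcases hy with hy | ⟨d, hd⟩
      · left
        simp only at hy
        subst hy
        rfl
      · right
        refine ⟨d, ?_⟩
        simp only at hd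
        subst hd
        rfl

theorem a_false (s : I) (x : X) (hx : x.1.2 = false) : a s x = 0 := by
  simp [a, hx]

theorem a_inf (s : I) : a s ptInf = 0 := by
  simp [a, ptInf]

theorem a_pt_mem {s : I} {d : D} (h : d ∈ range s) : a s (pt d) = 1 := by
  simp only [a, pt, e, if_pos h]
  simp

theorem a_pt_notMem {s : I} {d : D} (h : d ∉ range s) : a s (pt d) = 0 := by
  simp only [a, pt, e, if_neg h]
  simp

theorem not_isWeaklyGrothendieck : ¬ IsWeaklyGrothendieck X := by
  classical
  intro h
  -- `A` is countably compact in `C_p(X)`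
  have hA : CountablyCompactIn (Cp X) A := by
    intro B hBA hB
    -- choose an infinite countable subset
    obtain ⟨b, hb⟩ : ∃ b : ℕ → I, Function.Injective (fun n => a (b n)) ∧
        ∀ n, (⟨a (b n), continuous_a _⟩ : Cp X) ∈ B := by
      have := hB.to_subtype
      obtain ⟨c⟩ : Nonempty (ℕ ↪ B) := ⟨Infinite.natEmbedding B⟩
      have h1 : ∀ n, ∃ s : I, (⟨a s, continuous_a s⟩ : Cp X) = (c n).1 := fun n => hBA (c n).2
      choose b hb using h1
      refine ⟨b, ?_, ?_⟩
      · intro n m hnm
        apply c.injective
        apply Subtype.ext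
        rw [← hb n, ← hb m]
        exact Subtype.ext hnm
      · intro n
        rw [hb n]
        exact (c n).2
    obtain ⟨hbinj, hbB⟩ := hb
    -- the union of the supports
    let S : Set D := ⋃ n, range (b n)
    have hS : S.Countable := countable_iUnion fun n => countable_range _
    let K : Set (X → ℝ) := Set.pi univ fun x => if x ∈ pt '' S then {0, 1} else {0}
    have hK : IsCompact K := by
      apply isCompact_univ_pi
      intro x
      split_ifs
      · exact (by simp : ({0, 1} : Set ℝ).Finite).isCompact
      · exact isCompact_singleton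
    have hsub : range (fun n => a (b n)) ⊆ K := by
      rintro _ ⟨n, rfl⟩ x -
      rcases cases_X x with hx | rfl | ⟨d, rfl⟩
      · simp only [a_false _ _ hx]
        split_ifs <;> simp
      · simp only [a_inf]
        split_ifs <;> simp
      · by_cases h1 : d ∈ range (b n)
        · have h2 : pt d ∈ pt '' S := ⟨d, mem_iUnion.mpr ⟨n, h1⟩, rfl⟩
          simp only [a_pt_mem h1, h2, if_true]
          simp
        · simp only [a_pt_notMem h1]
          split_ifs <;> simp
    obtain ⟨g, hgK, hg⟩ := (infinite_range_of_injective hbinj).exists_accPt_of_subset_isCompact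
      hK hsub
    -- the accumulation point is a continuous function
    have hgc : Continuous g := by
      let T : Set D := {d | g (pt d) = 1}
      have hTS : T ⊆ S := by
        intro d hd
        by_contra hdS
        have h1 := hgK (pt d) trivial
        have h2 : pt d ∉ pt '' S := by
          rintro ⟨d', hd', h3⟩
          have h4 : e d' = e d := congrArg (fun x : X => x.1.1.1.1) h3
          exact hdS (e_injective h4 ▸ hd')
        simp only [h2, if_false, mem_singleton_iff] at h1
        have hd' : g (pt d) = 1 := hd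
        rw [h1] at hd'
        exact zero_ne_one hd'
      have hT : T.Countable := hS.mono hTS
      have hzero : ∀ x, x.1.2 = false ∨ x = ptInf → g x = 0 := by
        intro x hx
        have h1 := hgK x trivial
        have h2 : x ∉ pt '' S := by
          rintro ⟨d, -, rfl⟩
          rcases hx with hx | hx
          · simp [pt] at hx
          · have : e d = 0 := congrArg (fun x : X => x.1.1.1.1) hx
            exact e_ne_zero d this
        simpa [h2] using h1
      have h1T : ∀ d, d ∈ T → g (pt d) = 1 := fun d hd => hd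
      have h0T : ∀ d, d ∉ T → g (pt d) = 0 := by
        intro d hd
        have h1 : g (pt d) ∈ (if pt d ∈ pt '' S then {0, 1} else {0} : Set ℝ) :=
          hgK (pt d) trivial
        split_ifs at h1
        · rcases h1 with h1 | h1
          · exact h1
          · exact absurd h1 hd
        · exact h1
      rcases T.eq_empty_or_nonempty with hTe | hTn
      · have : g = fun _ => 0 := by
          funext x
          rcases cases_X x with hx | rfl | ⟨d, rfl⟩
          · exact hzero x (Or.inl hx)
          · exact hzero _ (Or.inr rfl)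
          · exact h0T d (by rw [hTe]; exact notMem_empty d)
        rw [this]
        exact continuous_const
      · obtain ⟨s, hs⟩ := hT.exists_eq_range hTn
        have : g = a s := by
          funext x
          rcases cases_X x with hx | rfl | ⟨d, rfl⟩
          · rw [hzero x (Or.inl hx), a_false _ _ hx]
          · rw [hzero _ (Or.inr rfl), a_inf]
          · by_cases hd : d ∈ T
            · rw [h1T d hd, a_pt_mem (hs ▸ hd)]
            · rw [h0T d hd, a_pt_notMem (hs ▸ hd)]
        rw [this]
        exact continuous_a s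
    refine ⟨⟨g, hgc⟩, ?_⟩
    rw [accPt_iff_nhds]
    intro U hU
    rw [nhds_subtype_eq_comap, mem_comap] at hU
    obtain ⟨V, hV, hVU⟩ := hU
    obtain ⟨y, ⟨hyV, n, rfl⟩, hyg⟩ := accPt_iff_nhds.mp hg V hV
    refine ⟨⟨a (b n), continuous_a _⟩, ⟨hVU hyV, hbB n⟩, ?_⟩
    intro h1
    exact hyg (congrArg Subtype.val h1)
  -- but its closure is not compact
  have hcomp := h A hA
  have hcl : IsClosed (Subtype.val '' closure A : Set (X → ℝ)) :=
    (hcomp.image continuous_subtype_val).isClosed
  let φ : X → ℝ := fun x => if ∃ d, x = pt d then 1 else 0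
  have hφ : φ ∈ closure (Subtype.val '' closure A : Set (X → ℝ)) := by
    rw [mem_closure_iff_nhds]
    intro U hU
    rw [nhds_pi, Filter.mem_pi'] at hU
    obtain ⟨T, t, ht, hTU⟩ := hU
    -- a sequence containing all relevant points of `D`
    let E : Set D := {d | pt d ∈ T}
    have hE : E.Finite := by
      refine T.finite_toSet.preimage (f := pt) ?_
      intro d _ d' _ hdd
      have h4 : e d = e d' := congrArg (fun x : X => x.1.1.1.1) hdd
      exact e_injective h4
    obtain ⟨s, hs⟩ := (hE.insert (fun _ => true)).countable.exists_eq_range (insert_nonempty _ _)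
    refine ⟨a s, hTU ?_, ⟨a s, continuous_a s⟩, subset_closure ⟨s, rfl⟩, rfl⟩
    intro x hx
    have hval : a s x = φ x := by
      rcases cases_X x with hx' | rfl | ⟨d, rfl⟩
      · rw [a_false _ _ hx']
        have : ¬ ∃ d, x = pt d := by
          rintro ⟨d, rfl⟩
          simp [pt] at hx'
        simp [φ, this]
      · rw [a_inf]
        have : ¬ ∃ d, ptInf = pt d := by
          rintro ⟨d, hd⟩
          have : 0 = e d := congrArg (fun x : X => x.1.1.1.1) hd
          exact e_ne_zero d this.symm
        simp [φ, this]
      · have h1 : d ∈ range s := by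
          rw [← hs]
          exact Or.inr hx
        have h2 : ∃ d', pt d = pt d' := ⟨d, rfl⟩
        rw [a_pt_mem h1]
        simp only [φ, h2, if_true]
    rw [hval]
    exact mem_of_mem_nhds (ht x)
  rw [hcl.closure_eq] at hφ
  obtain ⟨⟨φ', hφc⟩, -, hφe⟩ := hφ
  simp only at hφe
  subst hφe
  have h1 : Tendsto (fun d => φ (pt d)) cocountable (𝓝 (φ ptInf)) :=
    (hφc.tendsto ptInf).comp tendsto_pt
  have h2 : φ ptInf = 0 := by
    have : ¬ ∃ d, ptInf = pt d := by
      rintro ⟨d, hd⟩
      have : 0 = e d := congrArg (fun x : X => x.1.1.1.1) hd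
      exact e_ne_zero d this.symm
    simp [φ, this]
  have h3 : ∀ d, φ (pt d) = 1 := by
    intro d
    have : ∃ d', pt d = pt d' := ⟨d, rfl⟩
    simp only [φ, this, if_true]
  simp only [h2, h3] at h1
  have hne : (cocountable : Filter D).NeBot := by
    have := uncountable_D
    rw [neBot_iff, Ne, ← empty_mem_iff_bot, mem_cocountable, compl_empty]
    exact not_countable_univ
  have := tendsto_nhds_unique h1 tendsto_const_nhds
  exact zero_ne_one this

/-- **Arhangel'skii's questions have negative answers.**  There are Tychonoff spaces `X` and `Y`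
and a perfect map `f : X → Y` such that `Y` is a Grothendieck space (hence also weakly
Grothendieck) but `X` is not weakly Grothendieck (hence not Grothendieck). -/
theorem result :
    ∃ (X Y : Type) (_ : TopologicalSpace X) (_ : TopologicalSpace Y) (f : X → Y),
      T35Space X ∧ T35Space Y ∧ IsPerfect f ∧
        (IsGrothendieck Y ∧ IsWeaklyGrothendieck Y) ∧
        (¬ IsGrothendieck X ∧ ¬ IsWeaklyGrothendieck X) := by
  have := separable_Y
  have hY : IsGrothendieck Y := isGrothendieck_of_separable Y
  exact ⟨X, Y, inferInstance, inferInstance, proj, inferInstance, inferInstance,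
    isPerfect_proj, ⟨hY, hY.isWeaklyGrothendieck⟩,
    fun h => not_isWeaklyGrothendieck h.isWeaklyGrothendieck, not_isWeaklyGrothendieck⟩

end Pool.Agent.Results.MP_590c78_gt.PerfectPreimage
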